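import Pool.Agent.H108R4.Patch

/-!
# No number of surroundings forces a set of eight prototiles to tile the plane

For every `k` there is a set of eight prototiles (closed topological disks) that does not tile the
plane, although every patch consisting of a single tile can be surrounded `k` times.  This is the
negated form of the question, with `n = 8` and `m = 1`.
-/

set_option autoImplicit false

open Set

namespace Pool.Agent.Results.MP_ae4adf_co.EightPrototiles

/-- The Euclidean plane: the complex numbers with their usual metric. -/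
abbrev Plane : Type := ℂ

/-- A prototile: a closed topological disk, that is, a subset of the plane homeomorphic to the
closed unit disk. -/
def IsPrototile (P : Set Plane) : Prop := Nonempty (P ≃ₜ Metric.closedBall (0 : Plane) 1)

/-- A tile from `S`: the image of a member of `S` under an isometry of the plane. -/
def IsTile (S : Finset (Set Plane)) (T : Set Plane) : Prop :=
  ∃ P ∈ S, ∃ g : Plane ≃ᵢ Plane, T = g '' P

/-- A patch: a finite collection of tiles from `S` with pairwise disjoint interiors whose union is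
a closed topological disk. -/
def IsPatch (S A : Finset (Set Plane)) : Prop :=
  (∀ T ∈ A, IsTile S T) ∧ (∀ T ∈ A, ∀ T' ∈ A, T ≠ T' → Disjoint (interior T) (interior T')) ∧
    Nonempty ((⋃ T ∈ A, T : Set Plane) ≃ₜ Metric.closedBall (0 : Plane) 1)

/-- The patch `B` surrounds the patch `A`. -/
def Surrounds (B A : Finset (Set Plane)) : Prop :=
  A ⊆ B ∧ (⋃ T ∈ A, T) ⊆ interior (⋃ T ∈ B, T)

/-- The patch `A` can be surrounded `r` times by patches of tiles from `S`. -/
def CanBeSurrounded (S A : Finset (Set Plane)) (r : ℕ) : Prop :=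
  ∃ f : ℕ → Finset (Set Plane), f 0 = A ∧ (∀ i ≤ r, IsPatch S (f i)) ∧
    ∀ i < r, Surrounds (f (i + 1)) (f i)

/-- `S` admits a tiling of the plane: some countable family of tiles from `S` with pairwise
disjoint interiors covers the plane. -/
def AdmitsTiling (S : Finset (Set Plane)) : Prop :=
  ∃ (ι : Type) (_ : Countable ι) (T : ι → Set Plane), (∀ i, IsTile S (T i)) ∧
    (∀ i j, i ≠ j → Disjoint (interior (T i)) (interior (T j))) ∧ (⋃ i, T i) = univ

open Pool.Agent.H108R4.Br

section aux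

variable {H : ℝ} (hH : 0 < H) (hH8 : H ≤ 1 / 8)

include hH hH8

theorem sign_eq_of_shape {p q : Proto} (hp : p.Good) (h : p.shape H = q.shape H) {n : ℕ}
    (hn : n ≤ 4) : (q.b n).sign ≤ (p.b n).sign ∧ (p.t n).sign ≤ (q.t n).sign := by
  have hℓ : (1 : ℝ) ≤ p.ℓ := by exact_mod_cast hp.one
  have hn' : (n : ℝ) ≤ 4 := by exact_mod_cast hn
  have hn0 : (0 : ℝ) ≤ n := by positivity
  have b1 := abs_le.1 (abs_prof_le hH p.b ((n : ℤ) / 4 : ℝ))
  have t1 := abs_le.1 (abs_prof_le hH p.t ((n : ℤ) / 4 : ℝ))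
  have hb : (⟨((n : ℤ) / 4 : ℝ), prof H p.b ((n : ℤ) / 4 : ℝ)⟩ : ℂ) ∈ q.shape H := by
    rw [← h]
    refine ⟨?_, ?_, le_rfl, ?_⟩
    · push_cast; positivity
    · push_cast; linarith
    · simp only
      linarith [b1.2, t1.1]
  have ht : (⟨((n : ℤ) / 4 : ℝ), 1 + prof H p.t ((n : ℤ) / 4 : ℝ)⟩ : ℂ) ∈ q.shape H := by
    rw [← h]
    refine ⟨?_, ?_, ?_, le_rfl⟩
    · push_cast; positivity
    · push_cast; linarith
    · simp only
      linarith [b1.2, t1.1]
  obtain ⟨-, -, h3, -⟩ := hb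
  obtain ⟨-, -, -, h4⟩ := ht
  simp only at h3 h4
  rw [prof_slot hH hH8, prof_slot hH hH8] at h3 h4
  constructor
  · have : ((q.b n).sign : ℝ) ≤ ((p.b n).sign : ℝ) := le_of_mul_le_mul_right h3 hH
    exact_mod_cast this
  · have h5 : ((p.t n).sign : ℝ) * H ≤ ((q.t n).sign : ℝ) * H := by linarith
    have : ((p.t n).sign : ℝ) ≤ ((q.t n).sign : ℝ) := le_of_mul_le_mul_right h5 hH
    exact_mod_cast this

theorem shape_inj {h : ℕ} (hh : 1 ≤ h) : Function.Injective fun k : Fin 8 => (pr h k).shape H := by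
  intro k k' hk0
  have hk : (pr h k).shape H = (pr h k').shape H := hk0
  have hb : ∀ k, (pr h k).b = (pr 1 k).b := by intro k; fin_cases k <;> rfl
  have ht : ∀ k, (pr h k).t = (pr 1 k).t := by intro k; fin_cases k <;> rfl
  have key : ∀ n : ℕ, n ≤ 4 → ((pr 1 k).b n).sign = ((pr 1 k').b n).sign ∧
      ((pr 1 k).t n).sign = ((pr 1 k').t n).sign := by
    intro n hn
    obtain ⟨a1, a2⟩ := sign_eq_of_shape hH hH8 (pr_good hh k) hk hn
    obtain ⟨b1, b2⟩ := sign_eq_of_shape hH hH8 (pr_good hh k') hk.symm hn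
    rw [hb, hb] at a1 b1
    rw [ht, ht] at a2 b2
    exact ⟨le_antisymm b1 a1, le_antisymm a2 b2⟩
  have k1 := key 1 (by norm_num)
  have k2 := key 2 (by norm_num)
  have k3 := key 3 (by norm_num)
  clear key hb ht hk hk0
  revert k k'
  decide

end aux

/-- Where the prototiles occur in the arrangement. -/
def loc (h : ℕ) (k : Fin 8) : ℤ × ℤ :=
  match k with
  | 0 => (0, 0)
  | 1 => (3, 0)
  | 2 => (1, 2 * h - 1)
  | 3 => (1, 1)
  | 4 => (1, 0)
  | 5 => (2, 2 * h - 1)
  | 6 => (2, 0)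
  | 7 => (2, h)

theorem loc_ix {h : ℕ} (hh : 15 ≤ h) (k : Fin 8) : ix h (loc h k).1 (loc h k).2 = k := by
  have hh' : (15 : ℤ) ≤ h := by exact_mod_cast hh
  have e0 : (0 : ℤ) / (2 * h) = 0 ∧ (0 : ℤ) % (2 * h) = 0 := by simp
  obtain ⟨e1, e1'⟩ := euc (h := h) (j := 1) (a := 0) (ρ := 1) (by omega) (by ring) (by omega)
    (by omega)
  obtain ⟨e2, e2'⟩ := euc (h := h) (j := 2 * h - 1) (a := 0) (ρ := 2 * h - 1) (by omega) (by ring)
    (by omega) (by omega)
  obtain ⟨e3, e3'⟩ := euc (h := h) (j := h) (a := 0) (ρ := h) (by omega) (by ring)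
    (by omega) (by omega)
  fin_cases k
  · simp [loc, ix]
  · simp [loc, ix]
  · have : ¬ ((2 * h - 1 : ℤ) = 0) := by omega
    have h2 : ¬ ((2 * h - 1 : ℤ) ≤ h) := by omega
    simp [loc, ix, Lc, e2, e2', this, h2]
  · have h2 : (1 : ℤ) ≤ h := by omega
    simp [loc, ix, Lc, e1, e1', h2]
  · simp [loc, ix, Lc]
  · have : ¬ ((2 * h - 1 : ℤ) = h) := by omega
    have h2 : ¬ ((2 * h - 1 : ℤ) < h) := by omega
    simp [loc, ix, Uc, e2, e2', this, h2]
  · have h1 : ¬ ((0 : ℤ) = h) := by omega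
    have h2 : (0 : ℤ) < h := by omega
    have h3 : 0 < h := by omega
    have h4 : h ≠ 0 := by omega
    simp [loc, ix, Uc, h1, h3, h4]
  · simp [loc, ix, Uc, e3, e3']

theorem loc_spec {h : ℕ} (hh : 15 ≤ h) (k : Fin 8) :
    (0 ≤ (loc h k).1 ∧ (loc h k).1 ≤ 3) ∧ 0 ≤ bp h (loc h k).1 (loc h k).2 ∧
    bp h (loc h k).1 ((loc h k).2 + 1) ≤ 16 * h ∧
    (-Nx h 1 (loc h k).1 ≤ (loc h k).2 ∧ (loc h k).2 < Nx h 1 (loc h k).1) := by
  have hh' : (15 : ℤ) ≤ h := by exact_mod_cast hh
  fin_cases k <;> simp [loc, bp, al, be, Nx, Mx] <;> omega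

open Classical in
/-- The set of the eight prototiles. -/
noncomputable def SS (H : ℝ) (h : ℕ) : Finset (Set Plane) :=
  Finset.univ.image fun k : Fin 8 => (pr h k).shape H

theorem mem_SS {H : ℝ} {h : ℕ} {P : Set Plane} : P ∈ SS H h ↔ ∃ k, (pr h k).shape H = P := by
  simp [SS]

theorem isTile_tl {H : ℝ} {h : ℕ} (hh : 1 ≤ h) {r i : ℤ} (hv : valid h r i) :
    IsTile (SS H h) (tl H h r i) :=
  ⟨_, mem_SS.2 ⟨_, rfl⟩, _, tl_eq hh hv⟩

theorem isPatch_PT {H : ℝ} (hH : 0 < H) (hH8 : H ≤ 1 / 8) {h m : ℕ} (hm : 9 + 6 * m ≤ h)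
    (hR : (2 * ((2 * m + 2 : ℕ) : ℝ) + 2) * H < 1) : IsPatch (SS H h) (PT H h m) := by
  refine ⟨?_, ?_, PT_disk hH hH8 hm hR⟩
  · intro T hT
    obtain ⟨r, i, hr, hi, rfl⟩ := mem_PT.1 hT
    exact isTile_tl (by omega) (valid_PT hm hi)
  · intro T hT T' hT' hne
    obtain ⟨r, i, hr, hi, rfl⟩ := mem_PT.1 hT
    obtain ⟨r', i', hr', hi', rfl⟩ := mem_PT.1 hT'
    apply tl_disj hH hH8 (by omega)
    rintro ⟨rfl, rfl⟩
    exact hne rfl

open Classical in
/-- Transport of a collection by an isometry. -/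
noncomputable def move (g : Plane ≃ᵢ Plane) (A : Finset (Set Plane)) : Finset (Set Plane) :=
  A.image fun T => g '' T

theorem mem_move {g : Plane ≃ᵢ Plane} {A : Finset (Set Plane)} {T : Set Plane} :
    T ∈ move g A ↔ ∃ T' ∈ A, g '' T' = T := by
  simp [move]

theorem union_move (g : Plane ≃ᵢ Plane) (A : Finset (Set Plane)) :
    (⋃ T ∈ move g A, T) = g '' (⋃ T ∈ A, T) := by
  rw [image_iUnion₂]
  ext z
  simp only [mem_iUnion, exists_prop]
  constructor
  · rintro ⟨T, hT, hz⟩
    obtain ⟨T', hT', rfl⟩ := mem_move.1 hT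
    exact ⟨T', hT', hz⟩
  · rintro ⟨T', hT', hz⟩
    exact ⟨_, mem_move.2 ⟨T', hT', rfl⟩, hz⟩

theorem IsPatch.move {S A : Finset (Set Plane)} (hA : IsPatch S A) (g : Plane ≃ᵢ Plane) :
    IsPatch S (move g A) := by
  obtain ⟨h1, h2, h3⟩ := hA
  refine ⟨?_, ?_, ?_⟩
  · intro T hT
    obtain ⟨T', hT', rfl⟩ := mem_move.1 hT
    obtain ⟨P, hP, g', rfl⟩ := h1 T' hT'
    refine ⟨P, hP, g'.trans g, ?_⟩
    rw [← image_comp]
    rfl
  · intro T hT T' hT' hne
    obtain ⟨T1, hT1, rfl⟩ := mem_move.1 hT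
    obtain ⟨T2, hT2, rfl⟩ := mem_move.1 hT'
    rw [interior_image, interior_image]
    apply (disjoint_image_iff g.injective).2
    apply h2 T1 hT1 T2 hT2
    rintro rfl
    exact hne rfl
  · rw [union_move]
    exact IsDisk.image h3 g.continuous g.injective

theorem Surrounds.move {A B : Finset (Set Plane)} (h : Surrounds B A) (g : Plane ≃ᵢ Plane) :
    Surrounds (move g B) (move g A) := by
  refine ⟨?_, ?_⟩
  · intro T hT
    obtain ⟨T', hT', rfl⟩ := mem_move.1 hT
    exact mem_move.2 ⟨T', h.1 hT', rfl⟩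
  · rw [union_move, union_move, interior_image]
    exact image_mono h.2

theorem no_tiling {H : ℝ} (hH : 0 < H) (hH8 : H ≤ 1 / 8) {h : ℕ} (hh : 1 ≤ h) :
    ¬ AdmitsTiling (SS H h) := by
  rintro ⟨ι, -, T, h1, h2, h3⟩
  have hex : ∀ A : Set ℂ, A ∈ range T → ∃ (k : Fin 8) (g : ℂ ≃ᵢ ℂ), A = g '' (pr h k).shape H := by
    rintro _ ⟨i, rfl⟩
    obtain ⟨P, hP, g, hg⟩ := h1 i
    obtain ⟨k, rfl⟩ := mem_SS.1 hP
    exact ⟨k, g, hg⟩
  choose! idx iso heq using hex
  let τ : Tiling (pr h) H (range T) :=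
    { idx := idx
      iso := iso
      eq := heq
      disj := by
        rintro _ ⟨i, rfl⟩ _ ⟨j, rfl⟩ hne
        apply h2
        rintro rfl
        exact hne rfl
      cover := by rw [sUnion_range]; exact h3 }
  refine tiling_false hH hH8 (fun k => pr_good hh k) τ (L := 2 * h + 1) ?_ (W := Wt h)
    (K := ∑ k : Fin 8, (pr h k).tooW (Wt h)) ?_ ?_
  · intro k
    fin_cases k <;> simp [pr]
  · intro k
    exact Finset.single_le_sum (f := fun k => (pr h k).tooW (Wt h)) (fun _ _ => Nat.zero_le _)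
      (Finset.mem_univ k)
  · intro k
    exact notW_eq (balance hh k)

/-- **Main result.** For every `k` there is a set of eight prototiles that admits no tiling of the
plane, although some patch consists of one tile, and every patch consisting of one tile can be
surrounded `k` times. -/
theorem result : ∀ k : ℕ, ∃ S : Finset (Set Plane), S.card = 8 ∧ (∀ P ∈ S, IsPrototile P) ∧
    ¬ AdmitsTiling S ∧ (∃ A, IsPatch S A ∧ A.card = 1) ∧
    ∀ A, IsPatch S A → A.card = 1 → CanBeSurrounded S A k := by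
  classical
  intro k
  obtain ⟨h, hh⟩ : ∃ h : ℕ, h = 15 + 6 * k := ⟨_, rfl⟩
  obtain ⟨H, hHd⟩ : ∃ H : ℝ, H = 1 / (8 * (4 * (k : ℝ) + 6)) := ⟨_, rfl⟩
  have hk0 : (0 : ℝ) ≤ k := by positivity
  have hH : 0 < H := by rw [hHd]; positivity
  have hHm : H * (8 * (4 * (k : ℝ) + 6)) = 1 := by rw [hHd]; field_simp
  have hH8 : H ≤ 1 / 8 := by nlinarith
  have h8 : 8 * H < 1 := by nlinarith
  have hcen : ∀ j, IsDisk (tl H h (loc h j).1 (loc h j).2) := fun j =>
    tl_disk hH hH8 h8 (by omega) (loc_spec (by omega) j).1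
  have hval : ∀ j, valid h (loc h j).1 (loc h j).2 := fun j =>
    valid_PT (m := 1) (by omega) (loc_spec (by omega) j).2.2.2
  have hform : ∀ j, tl H h (loc h j).1 (loc h j).2 =
      IsometryEquiv.addLeft (⟨(bp h (loc h j).1 (loc h j).2 : ℝ) / 4, (loc h j).1⟩ : ℂ) ''
        (pr h j).shape H := by
    intro j
    have := tl_eq (H := H) (h := h) (by omega) (hval j)
    rwa [loc_ix (by omega)] at this
  have hproto : ∀ P ∈ SS H h, IsPrototile P := by
    intro P hP
    obtain ⟨j, rfl⟩ := mem_SS.1 hP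
    have e : (pr h j).shape H = (IsometryEquiv.addLeft
        (⟨(bp h (loc h j).1 (loc h j).2 : ℝ) / 4, (loc h j).1⟩ : ℂ)).symm ''
        tl H h (loc h j).1 (loc h j).2 := by
      rw [hform j, ← image_comp]
      have : ∀ x, ((IsometryEquiv.addLeft
          (⟨(bp h (loc h j).1 (loc h j).2 : ℝ) / 4, (loc h j).1⟩ : ℂ)).symm ∘
          (IsometryEquiv.addLeft
          (⟨(bp h (loc h j).1 (loc h j).2 : ℝ) / 4, (loc h j).1⟩ : ℂ))) x = x :=
        fun x => IsometryEquiv.symm_apply_apply _ x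
      rw [funext this, image_id']
    show IsDisk _
    rw [e]
    exact IsDisk.image (hcen j) (IsometryEquiv.continuous _) (IsometryEquiv.injective _)
  refine ⟨SS H h, ?_, hproto, no_tiling hH hH8 (by omega), ?_, ?_⟩
  · unfold SS
    rw [Finset.card_image_of_injective _ (shape_inj hH hH8 (by omega))]
    simp
  · refine ⟨{(pr h 0).shape H}, ⟨?_, ?_, ?_⟩, by simp⟩
    · intro T hT
      rw [Finset.mem_singleton] at hT
      exact ⟨_, mem_SS.2 ⟨0, rfl⟩, IsometryEquiv.refl ℂ, hT.trans (image_id _).symm⟩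
    · intro T hT T' hT' hne
      rw [Finset.mem_singleton] at hT hT'
      exact absurd (hT.trans hT'.symm) hne
    · have : (⋃ T ∈ ({(pr h 0).shape H} : Finset (Set Plane)), T) = (pr h 0).shape H := by simp
      rw [this]
      exact hproto _ (mem_SS.2 ⟨0, rfl⟩)
  · intro A hA hcard
    obtain ⟨T, rfl⟩ := Finset.card_eq_one.1 hcard
    obtain ⟨P, hP, g, hg⟩ := hA.1 T (Finset.mem_singleton_self T)
    obtain ⟨j, rfl⟩ := mem_SS.1 hP
    let v : ℂ := ⟨(bp h (loc h j).1 (loc h j).2 : ℝ) / 4, (loc h j).1⟩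
    let G : Plane ≃ᵢ Plane := (IsometryEquiv.addLeft v).symm.trans g
    have hG : G '' tl H h (loc h j).1 (loc h j).2 = T := by
      rw [hform j, hg, ← image_comp]
      congr 1
      funext x
      show g ((IsometryEquiv.addLeft v).symm (IsometryEquiv.addLeft v x)) = g x
      rw [IsometryEquiv.symm_apply_apply]
    let F : ℕ → Finset (Set Plane) := fun n =>
      if n = 0 then {tl H h (loc h j).1 (loc h j).2} else PT H h n
    have hF0 : F 0 = {tl H h (loc h j).1 (loc h j).2} := by simp [F]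
    have hFs : ∀ n, F (n + 1) = PT H h (n + 1) := fun n => by simp [F]
    have hpat : ∀ i ≤ k, IsPatch (SS H h) (F i) := by
      intro i hi
      rcases Nat.eq_zero_or_pos i with h0 | h0
      · rw [h0, hF0]
        refine ⟨?_, ?_, ?_⟩
        · intro T' hT'
          rw [Finset.mem_singleton] at hT'
          rw [hT']
          exact isTile_tl (by omega) (hval j)
        · intro T1 hT1 T2 hT2 hne
          rw [Finset.mem_singleton] at hT1 hT2
          exact absurd (hT1.trans hT2.symm) hne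
        · have : (⋃ T ∈ ({tl H h (loc h j).1 (loc h j).2} : Finset (Set Plane)), T) =
            tl H h (loc h j).1 (loc h j).2 := by simp
          rw [this]
          exact hcen j
      · obtain ⟨n, rfl⟩ : ∃ n, i = n + 1 := ⟨i - 1, by omega⟩
        rw [hFs]
        apply isPatch_PT hH hH8 (by omega)
        have : ((n + 1 : ℕ) : ℝ) ≤ k := by exact_mod_cast hi
        push_cast at this ⊢
        nlinarith
    have hsur : ∀ i < k, Surrounds (F (i + 1)) (F i) := by
      intro i hi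
      rw [hFs]
      rcases Nat.eq_zero_or_pos i with h0 | h0
      · obtain ⟨s1, s2, s3, s4⟩ := loc_spec (h := h) (by omega) j
        rw [h0, hF0]
        refine ⟨?_, ?_⟩
        · intro T' hT'
          rw [Finset.mem_singleton] at hT'
          rw [hT']
          exact mem_PT.2 ⟨_, _, by constructor <;> push_cast <;> omega, s4, rfl⟩
        · have : (⋃ T ∈ ({tl H h (loc h j).1 (loc h j).2} : Finset (Set Plane)), T) =
            tl H h (loc h j).1 (loc h j).2 := by simp
          rw [this]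
          exact tile_nest hH hH8 (by omega) s1 s2 s3
      · obtain ⟨n, rfl⟩ : ∃ n, i = n + 1 := ⟨i - 1, by omega⟩
        rw [hFs]
        exact ⟨PT_sub H, PT_nest hH hH8 (by omega)⟩
    refine ⟨fun n => move G (F n), ?_, fun i hi => (hpat i hi).move G,
      fun i hi => (hsur i hi).move G⟩
    show move G (F 0) = {T}
    rw [hF0]
    unfold move
    rw [Finset.image_singleton, hG]

end Pool.Agent.Results.MP_ae4adf_co.EightPrototiles
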